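import Pool.Agent.Run7.h347.OW.Iface

/-!
# Project OW, piece TH
-/

set_option autoImplicit false

open Set Filter Topology Pool.Agent.Results.MP_76989b_gt.NotFrechetUrysohn

namespace Run7.h373.OW

open Pool.Agent.Run7.h347.OW

theorem t_TH {X : Type*} [TopologicalSpace X] : S_TH X := by
  intro hT2 hS d U1 U2 hU1 hU2 hdis hd1 hd2
  let 𝒰 : Set (Set X) := {V | ∃ B, IsOpen B ∧ d ∈ closure B ∧ d ∉ interior (closure B) ∧
    V = (closure B)ᶜ ∪ {d}}
  have hfin : ∀ F : Set X, F.Finite → ∃ u ∈ 𝒰, F ⊆ u := by
    intro F hF
    have hF' : (F \ {d}).Finite := hF.subset sdiff_subset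
    have hsep : SeparatedNhds ({d} : Set X) ((hF'.toFinset : Finset X) : Set X) :=
      SeparatedNhds.of_singleton_finset (by simp)
    obtain ⟨N, M, hN, hM, hdN, hFM, hNM⟩ := hsep
    rw [Finite.coe_toFinset] at hFM
    have hdN' : d ∈ N := hdN rfl
    have hcl : Disjoint (closure N) M := hNM.closure_left hM
    refine ⟨(closure (N ∩ U1))ᶜ ∪ {d}, ⟨N ∩ U1, hN.inter hU1, hN.inter_closure ⟨hdN', hd1⟩, ?_, rfl⟩, ?_⟩
    · intro h
      obtain ⟨z, hz1, hz2⟩ := mem_closure_iff.1 hd2 _ isOpen_interior h
      have h1 : z ∈ closure U1 := closure_mono inter_subset_right (interior_subset hz1)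
      exact Set.disjoint_left.1 (hdis.closure_left hU2) h1 hz2
    · intro y hy
      by_cases hyd : y = d
      · exact Or.inr hyd
      · refine Or.inl fun h => ?_
        exact Set.disjoint_left.1 hcl (closure_mono inter_subset_left h) (hFM ⟨hy, hyd⟩)
  have hom : 𝒰 ∈ OmegaS X := by
    refine ⟨?_, ?_, hfin⟩
    · refine eq_univ_of_forall fun x => ?_
      obtain ⟨u, hu, hx⟩ := hfin {x} (finite_singleton x)
      exact ⟨u, hu, hx rfl⟩
    · rintro _ ⟨B, hB, hdB, hdB', rfl⟩
      have hd : d ∈ closure (closure B)ᶜ := by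
        rw [closure_compl]; exact hdB'
      have ho : IsOpen (closure B)ᶜ := isClosed_closure.isOpen_compl
      constructor
      · have h1 : (closure B)ᶜ ⊆ interior ((closure B)ᶜ ∪ {d}) := by
          rw [← ho.interior_eq]
          exact interior_mono (by rw [ho.interior_eq]; exact subset_union_left)
        rintro x (hx | hx)
        · exact subset_closure (h1 hx)
        · rw [mem_singleton_iff] at hx
          rw [hx]
          exact closure_mono h1 hd
      · have h1 : closure ((closure B)ᶜ ∪ {d}) = closure (closure B)ᶜ := by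
          rw [closure_union, closure_singleton]
          exact union_eq_left.2 (by rintro x hx; rw [mem_singleton_iff] at hx; rw [hx]; exact hd)
        have h2 : closure (interior (closure B)) = closure B :=
          (closure_minimal interior_subset isClosed_closure).antisymm
            (closure_mono (interior_maximal subset_closure hB))
        rw [h1, closure_compl, interior_compl, h2]
        exact subset_union_left
  obtain ⟨V, hV, hx⟩ := hS (fun _ => 𝒰) fun _ => hom
  choose B hB1 hB2 hB3 hB4 using hV
  refine ⟨B, hB1, hB2, hB3, fun y hy => ?_⟩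
  filter_upwards [hx y] with k hk
  rw [hB4 k] at hk
  rcases hk with hk | hk
  · exact hk
  · exact absurd hk hy

end Run7.h373.OW
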